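import Pool.Agent.W819.EN.Stm

/-!
# Project EN (MP_35f495_pr): many vertices with few layers
-/

set_option autoImplicit false

namespace Pool.Agent.W839.EN

open H974 Finset Filter Topology
open scoped Real
open Pool.Agent.W819.EN

theorem okP2 : Ok P2 := fun e => by
  constructor <;> norm_num

theorem bx_sub (v w : Vtx) (k l : ℤ) (h1 : w.1 - l ≤ v.1 - k) (h2 : v.1 + k ≤ w.1 + l)
    (h3 : w.2 - l ≤ v.2 - k) (h4 : v.2 + k ≤ w.2 + l) : bx v k ⊆ bx w l := by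
  unfold bx
  rintro ⟨x, y, _ | _⟩ h
  · simp only [mem_RE_false] at h ⊢; omega
  · simp only [mem_RE_true] at h ⊢; omega

theorem bx_trl (v : Vtx) (k : ℤ) : (trl v.1 v.2).mp (bx (0, 0) k) = bx v k := by
  unfold bx
  rw [trl_RE]
  congr 1 <;> ring

theorem mem_vb {n : ℕ} {v : Vtx} : v ∈ vb n ↔ (-(n : ℤ) ≤ v.1 ∧ v.1 ≤ n) ∧ -(n : ℤ) ≤ v.2 ∧ v.2 ≤ n := by
  unfold vb
  rw [Finset.mem_product, Finset.mem_Icc, Finset.mem_Icc]

theorem vb_mono {m n : ℕ} (h : m ≤ n) : vb m ⊆ vb n := by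
  intro v hv
  rw [mem_vb] at hv ⊢
  omega

theorem card_vb (n : ℕ) (hn : 1 ≤ n) : ((vb n).card : ℝ) ≤ 9 * (n : ℝ) ^ 2 := by
  have h1 : (vb n).card = (2 * n + 1) * (2 * n + 1) := by
    unfold vb
    rw [Finset.card_product, Int.card_Icc]
    have : ((n : ℤ) + 1 - -(n : ℤ)).toNat = 2 * n + 1 := by omega
    rw [this]
  have h2 : (1 : ℝ) ≤ n := by exact_mod_cast hn
  rw [h1]
  push_cast
  nlinarith

/-- locality in the full box -/
theorem loc' {N : Finset Edg → Vtx → ℕ → ℕ → ℕ} (hG : Geo N) (F : Finset Edg) (v : Vtx)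
    (r R : ℕ) (h : r ≤ R) : N F v r R = N (F ∩ bx v R) v r R := by
  rw [hG.loc F v r R h, hG.loc (F ∩ bx v R) v r R h]
  congr 1
  ext e
  simp only [Finset.mem_inter, an, Finset.mem_sdiff]
  tauto

/-- the moment generating function does not depend on the vertex -/
theorem Ex_shift {N : Finset Edg → Vtx → ℕ → ℕ → ℕ} (hG : Geo N) (S : Finset Edg) (v : Vtx)
    (r R : ℕ) (h : r ≤ R) (hS : bx v R ⊆ S) (f : ℕ → ℝ) :
    Ex P2 S (fun F => f (N F v r R)) = Ex P2 (bx (0, 0) R) (fun F => f (N F (0, 0) r R)) := by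
  rw [Ex_local hS (fun F _ => by rw [loc' hG F v r R h])]
  rw [← bx_trl v R]
  unfold LSym.mp
  rw [Ex_map]
  refine Ex_congr fun F _ => ?_
  have h1 := hG.tr F v (0, 0) r R
  simp only [zero_add] at h1
  congr 1

theorem markov {N : Finset Edg → Vtx → ℕ → ℕ → ℕ} (hG : Geo N) (S : Finset Edg) (v : Vtx)
    (r R : ℕ) (h : r ≤ R) (hS : bx v R ⊆ S) (s c : ℝ) (hs : 0 < s) :
    Pr P2 S (fun F => c < (N F v r R : ℝ)) ≤
      Real.exp (-(s * c)) * Ex P2 (bx (0, 0) R) (fun F => Real.exp (s * N F (0, 0) r R)) := by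
  rw [← Ex_shift hG S v r R h hS (fun k => Real.exp (s * k)), ← Ex_mul_left]
  unfold Pr
  refine Ex_mono okP2 fun F _ => ?_
  by_cases hc : c < (N F v r R : ℝ)
  · rw [ind_of hc, ← Real.exp_add]
    apply Real.one_le_exp
    nlinarith
  · rw [ind_not_of hc]
    positivity

/-- iteration of the links -/
theorem chain {N : Finset Edg → Vtx → ℕ → ℕ → ℕ} (hG : Geo N) (F : Finset Edg) (v : Vtx)
    (b k n : ℕ) (hb : 4 ≤ b) (J : ℕ) (hn : 8 * b ^ J ≤ n)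
    (hl : ∀ i, 1 ≤ i → i ≤ J → Lnk v (b ^ i) k F) :
    N F v 0 n ≤ ∑ j ∈ range J, N F v (rj b j) (Rj b j) + N F v (rj b J) n + J * (4 + 18 * k) := by
  induction J with
  | zero => simp [rj]
  | succ J ih =>
    have hbJ : b ^ J ≤ b ^ (J + 1) := Nat.pow_le_pow_right (by omega) (by omega)
    have h1 := ih (by omega) (fun i hi hi' => hl i hi (by omega))
    have hr : rj b J ≤ b ^ (J + 1) := by
      unfold rj
      split_ifs with h
      · positivity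
      · rw [pow_succ, mul_comm]
        exact Nat.mul_le_mul_left _ hb
    have h2 := hG.link F v (b ^ (J + 1)) k (rj b J) n (Nat.one_le_pow _ _ (by omega)) hr hn
      (hl (J + 1) (by omega) le_rfl)
    have e1 : rj b (J + 1) = 4 * b ^ (J + 1) := by simp [rj]
    have e2 : Rj b J = 2 * b ^ (J + 1) := rfl
    rw [Finset.sum_range_succ, e1, e2]
    have : (J + 1) * (4 + 18 * k) = J * (4 + 18 * k) + (4 + 18 * k) := by ring
    rw [this]
    omega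

/-- the root of `n` -/
theorem root_exists (K : ℕ) (hK : 1 ≤ K) (n : ℕ) : ∃ b : ℕ, b ^ K ≤ n ∧ n < (b + 1) ^ K := by
  have hex : ∃ m : ℕ, n < m ^ K := ⟨n + 1, lt_of_lt_of_le (Nat.lt_succ_self n)
    (Nat.le_self_pow (by omega) _)⟩
  classical
  obtain ⟨m, hm, hmin⟩ : ∃ m, n < m ^ K ∧ ∀ l < m, ¬ n < l ^ K :=
    ⟨Nat.find hex, Nat.find_spec hex, fun l hl => Nat.find_min hex hl⟩
  have hm0 : m ≠ 0 := by
    rintro rfl
    rw [zero_pow (by omega)] at hm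
    omega
  obtain ⟨b, rfl⟩ := Nat.exists_eq_succ_of_ne_zero hm0
  exact ⟨b, not_lt.1 (hmin b (Nat.lt_succ_self b)), hm⟩

theorem dL_pos (hA : LegA) (s : ℝ) : 0 < dL s := by
  have h1 : 0 ≤ dL (s - 1) := hA.mono.monotone.le_of_tendsto hA.bot (s - 1)
  exact lt_of_le_of_lt h1 (hA.mono (by linarith))

theorem gam_nonneg (hB : LegB) (s : ℝ) : 0 ≤ gam s := by
  rcases lt_trichotomy s 0 with h | h | h
  · have := hB.gneg (Set.mem_Iic.2 h.le) (Set.mem_Iic.2 le_rfl) h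
    rw [hB.gzero] at this
    exact this.le
  · rw [h, hB.gzero]
  · have := hB.gpos (Set.mem_Ici.2 le_rfl) (Set.mem_Ici.2 h.le) h
    rw [hB.gzero] at this
    exact this.le

/-! ### numerical lemmas -/

theorem numA (n b k J : ℕ) (C ρ d : ℝ) (hd : 0 < d) (hC : 0 < C) (hb : 1 ≤ b) (hn : 1 ≤ n)
    (hnb : n ≤ b ^ (J + 6)) (hρ : ρ = Real.exp (-(18 * (4 * ((J : ℝ) + 6) + 1) / d)))
    (hk : d * Real.log b / 18 ≤ k + 1) (hlarge : 36 * J * C * ρ⁻¹ ≤ b) :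
    9 * (n : ℝ) ^ 2 * (J * (C * ρ ^ k)) ≤ 1 / (4 * (n : ℝ) ^ 2) := by
  have hb0 : (0 : ℝ) < b := by exact_mod_cast hb
  have hn0 : (0 : ℝ) < n := by exact_mod_cast hn
  have hρ0 : 0 < ρ := by rw [hρ]; exact Real.exp_pos _
  set M : ℕ := 4 * (J + 6) with hM
  have h1 : ρ ^ k ≤ ρ⁻¹ / (b : ℝ) ^ (M + 1) := by
    have e1 : ρ ^ k = Real.exp (-(18 * (M + 1) / d) * k) := by
      rw [hρ, ← Real.exp_nat_mul]
      congr 1
      rw [hM]
      push_cast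
      ring
    have e2 : ρ⁻¹ / (b : ℝ) ^ (M + 1) = Real.exp ((18 * (M + 1) / d) - (M + 1) * Real.log b) := by
      rw [hρ, ← Real.exp_neg, Real.exp_sub, neg_neg]
      congr 1
      · congr 1
        rw [hM]
        push_cast
        ring
      · rw [show ((M : ℝ) + 1) * Real.log b = ((M + 1 : ℕ) : ℝ) * Real.log b by push_cast; ring,
          Real.exp_nat_mul, Real.exp_log hb0]
    rw [e1, e2]
    apply Real.exp_le_exp.2
    have h2 : Real.log b ≤ 18 * (k + 1) / d := by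
      rw [le_div_iff₀ hd]
      nlinarith
    have h3 : (M + 1 : ℝ) * Real.log b ≤ (M + 1 : ℝ) * (18 * (k + 1) / d) :=
      mul_le_mul_of_nonneg_left h2 (by positivity)
    have h4 : (M + 1 : ℝ) * (18 * (k + 1) / d) = 18 * (M + 1) / d * k + 18 * (M + 1) / d := by
      ring
    linarith
  have h5 : (n : ℝ) ^ 4 ≤ (b : ℝ) ^ M := by
    have : n ^ 4 ≤ b ^ M := by
      calc n ^ 4 ≤ (b ^ (J + 6)) ^ 4 := Nat.pow_le_pow_left hnb 4
        _ = b ^ M := by rw [hM, ← pow_mul, mul_comm]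
    exact_mod_cast this
  have h6 : (n : ℝ) ^ 4 * ρ ^ k ≤ ρ⁻¹ / b := by
    calc (n : ℝ) ^ 4 * ρ ^ k ≤ (b : ℝ) ^ M * (ρ⁻¹ / (b : ℝ) ^ (M + 1)) :=
          mul_le_mul h5 h1 (by positivity) (by positivity)
      _ = ρ⁻¹ / b := by
          rw [pow_succ]
          field_simp
  have h7 : 36 * J * C * (ρ⁻¹ / b) ≤ 1 := by
    rw [← mul_div_assoc, div_le_one hb0]
    exact hlarge
  have h8 : 36 * J * C * ((n : ℝ) ^ 4 * ρ ^ k) ≤ 1 :=
    (mul_le_mul_of_nonneg_left h6 (by positivity)).trans h7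
  rw [le_div_iff₀ (by positivity)]
  calc 9 * (n : ℝ) ^ 2 * (J * (C * ρ ^ k)) * (4 * (n : ℝ) ^ 2) =
      36 * J * C * ((n : ℝ) ^ 4 * ρ ^ k) := by ring
    _ ≤ 1 := h8

theorem numB (n b J : ℕ) (C d l : ℝ) (hd : 0 < d) (hC : 0 < C) (hb : 1 ≤ b)
    (hbn : b ^ J ≤ n) (hnb : n ≤ b ^ (J + 6)) (hJ : 28 + 6 * |l| ≤ J) (hlarge : 36 * C ≤ b) :
    9 * (n : ℝ) ^ 2 * (Real.exp (-(6 / d * (d * J * Real.log b))) *
      (C * ((n : ℝ) / ((b ^ J : ℕ) : ℝ)) ^ l * (n : ℝ) ^ (1 / 2 : ℝ))) ≤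
      1 / (4 * (n : ℝ) ^ 2) := by
  have hb0 : (0 : ℝ) < b := by exact_mod_cast hb
  have hb1 : (1 : ℝ) ≤ b := by exact_mod_cast hb
  have hbJ : 1 ≤ b ^ J := Nat.one_le_pow _ _ hb
  have hn1 : 1 ≤ n := hbJ.trans hbn
  have hn0 : (0 : ℝ) < n := by exact_mod_cast hn1
  have hbJ0 : (0 : ℝ) < ((b ^ J : ℕ) : ℝ) := by exact_mod_cast hbJ
  have hnbR : (n : ℝ) ≤ (b : ℝ) ^ ((J : ℝ) + 6) := by
    have : (n : ℝ) ≤ (b : ℝ) ^ (J + 6) := by exact_mod_cast hnb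
    rw [← Real.rpow_natCast] at this
    push_cast at this
    exact this
  have e1 : Real.exp (-(6 / d * (d * J * Real.log b))) = (b : ℝ) ^ (-(6 * J : ℝ)) := by
    rw [Real.rpow_def_of_pos hb0]
    congr 1
    field_simp
  have e2 : ((n : ℝ) / ((b ^ J : ℕ) : ℝ)) ^ l ≤ (b : ℝ) ^ (6 * |l|) := by
    have h1 : (1 : ℝ) ≤ (n : ℝ) / ((b ^ J : ℕ) : ℝ) := by
      rw [one_le_div hbJ0]
      exact_mod_cast hbn
    have h2 : (n : ℝ) / ((b ^ J : ℕ) : ℝ) ≤ (b : ℝ) ^ (6 : ℝ) := by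
      rw [div_le_iff₀ hbJ0]
      refine hnbR.trans (le_of_eq ?_)
      rw [add_comm, Real.rpow_add hb0]
      congr 1
      push_cast
      rw [Real.rpow_natCast]
    calc ((n : ℝ) / ((b ^ J : ℕ) : ℝ)) ^ l ≤ ((n : ℝ) / ((b ^ J : ℕ) : ℝ)) ^ |l| :=
          Real.rpow_le_rpow_of_exponent_le h1 (le_abs_self l)
      _ ≤ ((b : ℝ) ^ (6 : ℝ)) ^ |l| :=
          Real.rpow_le_rpow (by positivity) h2 (abs_nonneg l)
      _ = (b : ℝ) ^ (6 * |l|) := by rw [← Real.rpow_mul hb0.le]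
  have e3 : (n : ℝ) ^ (1 / 2 : ℝ) ≤ (b : ℝ) ^ (((J : ℝ) + 6) * (1 / 2)) := by
    rw [Real.rpow_mul hb0.le]
    exact Real.rpow_le_rpow hn0.le hnbR (by norm_num)
  have e4 : (n : ℝ) ^ 4 ≤ (b : ℝ) ^ (((J : ℝ) + 6) * 4) := by
    rw [Real.rpow_mul hb0.le, show (4 : ℝ) = ((4 : ℕ) : ℝ) by norm_num, Real.rpow_natCast]
    exact pow_le_pow_left₀ hn0.le hnbR 4
  rw [le_div_iff₀ (by positivity), e1]
  calc 9 * (n : ℝ) ^ 2 * ((b : ℝ) ^ (-(6 * J : ℝ)) *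
        (C * ((n : ℝ) / ((b ^ J : ℕ) : ℝ)) ^ l * (n : ℝ) ^ (1 / 2 : ℝ))) * (4 * (n : ℝ) ^ 2)
      = 36 * C * ((n : ℝ) ^ 4 * (b : ℝ) ^ (-(6 * J : ℝ)) * ((n : ℝ) / ((b ^ J : ℕ) : ℝ)) ^ l *
          (n : ℝ) ^ (1 / 2 : ℝ)) := by ring
    _ ≤ 36 * C * ((b : ℝ) ^ (((J : ℝ) + 6) * 4) * (b : ℝ) ^ (-(6 * J : ℝ)) *
          (b : ℝ) ^ (6 * |l|) * (b : ℝ) ^ (((J : ℝ) + 6) * (1 / 2))) := by
        gcongr
    _ = 36 * C * (b : ℝ) ^ (((J : ℝ) + 6) * 4 + -(6 * J : ℝ) + 6 * |l| +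
          ((J : ℝ) + 6) * (1 / 2)) := by
        rw [Real.rpow_add hb0, Real.rpow_add hb0, Real.rpow_add hb0]
    _ ≤ 36 * C * (b : ℝ) ^ (-1 : ℝ) := by
        refine mul_le_mul_of_nonneg_left (Real.rpow_le_rpow_of_exponent_le hb1 ?_) (by positivity)
        have := abs_nonneg l
        nlinarith
    _ ≤ 1 := by
        rw [Real.rpow_neg_one, ← div_eq_mul_inv, div_le_one hb0]
        exact hlarge

theorem numC (n b J : ℕ) (x e2 y : ℝ) (hb : 1 ≤ b) (hn : 1 ≤ n) (hnb : n ≤ b ^ (J + 6))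
    (hx : x ≤ e2) (he2 : 0 ≤ e2) (hlarge : 2 ≤ (b : ℝ) ^ (y - ((J : ℝ) + 6) * e2)) :
    (n : ℝ) ^ x ≤ (b : ℝ) ^ y / 2 := by
  have hb0 : (0 : ℝ) < b := by exact_mod_cast hb
  have hn1 : (1 : ℝ) ≤ n := by exact_mod_cast hn
  have hnbR : (n : ℝ) ≤ (b : ℝ) ^ ((J : ℝ) + 6) := by
    have : (n : ℝ) ≤ (b : ℝ) ^ (J + 6) := by exact_mod_cast hnb
    rw [← Real.rpow_natCast] at this
    push_cast at this
    exact this
  have h1 : (n : ℝ) ^ x ≤ (b : ℝ) ^ (((J : ℝ) + 6) * e2) := by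
    calc (n : ℝ) ^ x ≤ (n : ℝ) ^ e2 := Real.rpow_le_rpow_of_exponent_le hn1 hx
      _ ≤ ((b : ℝ) ^ ((J : ℝ) + 6)) ^ e2 := Real.rpow_le_rpow (by positivity) hnbR he2
      _ = _ := by rw [← Real.rpow_mul hb0.le]
  have h2 : (b : ℝ) ^ y = (b : ℝ) ^ (((J : ℝ) + 6) * e2) * (b : ℝ) ^ (y - ((J : ℝ) + 6) * e2) := by
    rw [← Real.rpow_add hb0]
    congr 1
    ring
  have h3 : 0 < (b : ℝ) ^ (((J : ℝ) + 6) * e2) := Real.rpow_pos_of_pos hb0 _
  rw [le_div_iff₀ (by norm_num), h2]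
  nlinarith

theorem nb_upper (b n J : ℕ) (hb : 2 ^ (J + 5) ≤ b) (hn : n < (b + 1) ^ (J + 5)) :
    n ≤ b ^ (J + 6) := by
  have hb1 : 1 ≤ b := le_trans Nat.one_le_two_pow hb
  calc n ≤ (b + 1) ^ (J + 5) := hn.le
    _ ≤ (2 * b) ^ (J + 5) := Nat.pow_le_pow_left (by omega) _
    _ = 2 ^ (J + 5) * b ^ (J + 5) := mul_pow _ _ _
    _ ≤ b * b ^ (J + 5) := Nat.mul_le_mul_right _ hb
    _ = b ^ (J + 6) := by rw [← pow_succ']

/-- deterministic part -/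
theorem good_bound {N : Finset Edg → Vtx → ℕ → ℕ → ℕ} (hG : Geo N) (F : Finset Edg) (v : Vtx)
    (b k n J : ℕ) (ν0 ν1 d : ℝ) (hb : 4 ≤ b) (hJ : 1 ≤ J) (hn : 8 * b ^ J ≤ n) (hd : 0 < d)
    (hν0 : 0 ≤ ν0) (hν : ν0 + 4 * d ≤ ν1) (hk : 18 * (k : ℝ) ≤ d * Real.log b)
    (hlog : 4 ≤ d * Real.log b)
    (hl : ∀ i, 1 ≤ i → i ≤ J → Lnk v (b ^ i) k F)
    (hout : (N F v (4 * b ^ J) n : ℝ) ≤ d * J * Real.log b)
    (hin : ∀ j < J, |(N F v (rj b j) (Rj b j) : ℝ) - ν0 * Real.log b| ≤ d * Real.log b) :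
    (N F v 0 n : ℝ) ≤ ν1 * Real.log n := by
  have h1 := chain hG F v b k n hb J hn hl
  have e1 : rj b J = 4 * b ^ J := by
    unfold rj
    rw [if_neg (by omega)]
  rw [e1] at h1
  have hb1 : (1 : ℝ) ≤ b := by exact_mod_cast (by omega : 1 ≤ b)
  have hlb : 0 ≤ Real.log b := Real.log_nonneg hb1
  have h2 : (N F v 0 n : ℝ) ≤ ∑ j ∈ range J, (N F v (rj b j) (Rj b j) : ℝ) +
      (N F v (4 * b ^ J) n : ℝ) + J * (4 + 18 * k) := by exact_mod_cast h1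
  have h3 : ∑ j ∈ range J, (N F v (rj b j) (Rj b j) : ℝ) ≤ J * ((ν0 + d) * Real.log b) := by
    calc ∑ j ∈ range J, (N F v (rj b j) (Rj b j) : ℝ) ≤ ∑ j ∈ range J, ((ν0 + d) * Real.log b) := by
          refine Finset.sum_le_sum fun j hj => ?_
          have := (abs_le.1 (hin j (Finset.mem_range.1 hj))).2
          linarith
      _ = J * ((ν0 + d) * Real.log b) := by
          rw [Finset.sum_const, Finset.card_range, nsmul_eq_mul]
  have hJ0 : (0 : ℝ) ≤ J := Nat.cast_nonneg J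
  have h4 : (J : ℝ) * (4 + 18 * k) ≤ J * (2 * (d * Real.log b)) :=
    mul_le_mul_of_nonneg_left (by linarith) hJ0
  have h5 : (N F v 0 n : ℝ) ≤ (ν0 + 4 * d) * (J * Real.log b) := by
    calc (N F v 0 n : ℝ) ≤ J * ((ν0 + d) * Real.log b) + d * J * Real.log b +
          J * (2 * (d * Real.log b)) := by linarith
      _ = (ν0 + 4 * d) * (J * Real.log b) := by ring
  have h6 : (J : ℝ) * Real.log b ≤ Real.log n := by
    rw [← Real.log_pow]
    apply Real.log_le_log (by positivity)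
    have : b ^ J ≤ n := by omega
    exact_mod_cast this
  calc (N F v 0 n : ℝ) ≤ (ν0 + 4 * d) * (J * Real.log b) := h5
    _ ≤ ν1 * (J * Real.log b) := mul_le_mul_of_nonneg_right hν (by positivity)
    _ ≤ ν1 * Real.log n := mul_le_mul_of_nonneg_left h6 (by linarith)

theorem t_FEW (hA : LegA) (hB : LegB) {N : Finset Edg → Vtx → ℕ → ℕ → ℕ} (hG : Geo N)
    (hN : Ann N) (hL : LTail) (hD : Dev N) (hS : Sec N) : Few N := by
  classical
  intro s0 s1 ε h01 hε hg2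
  have hν : dL s0 < dL s1 := hA.mono h01
  have hν0 : 0 < dL s0 := dL_pos hA s0
  obtain ⟨d, hdd⟩ : ∃ d : ℝ, d = (dL s1 - dL s0) / 8 := ⟨_, rfl⟩
  have hd : 0 < d := by rw [hdd]; linarith
  have hg0 : 0 ≤ gam s0 := gam_nonneg hB s0
  obtain ⟨e', he', he1, he2⟩ : ∃ e' : ℝ, 0 < e' ∧ e' ≤ (2 - gam s0) / 2 ∧ e' ≤ ε / 8 :=
    ⟨min ((2 - gam s0) / 2) (ε / 8), lt_min (by linarith) (by linarith), min_le_left _ _,
      min_le_right _ _⟩
  obtain ⟨g, hgg⟩ : ∃ g : ℝ, g = gam s0 + e' := ⟨_, rfl⟩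
  have hg0' : 0 ≤ g := by rw [hgg]; linarith
  have hg2' : g < 2 := by rw [hgg]; linarith
  obtain ⟨l, hl⟩ : ∃ l : ℝ, l = Lam (6 / d) := ⟨_, rfl⟩
  obtain ⟨J, hJ⟩ := exists_nat_ge (16 / ε + 28 + 6 * |l|)
  have hε16 : 0 < 16 / ε := by positivity
  have hJ28 : 28 + 6 * |l| ≤ (J : ℝ) := by linarith
  have hJ1 : 1 ≤ J := by
    have : (1 : ℝ) ≤ J := by linarith [abs_nonneg l]
    exact_mod_cast this
  have hJε : 16 / ε ≤ (J : ℝ) := by linarith [abs_nonneg l]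
  obtain ⟨ρ, hρ⟩ : ∃ ρ : ℝ, ρ = Real.exp (-(18 * (4 * ((J : ℝ) + 6) + 1) / d)) := ⟨_, rfl⟩
  have hρ0 : 0 < ρ := by rw [hρ]; exact Real.exp_pos _
  obtain ⟨CA, hCA, hLA⟩ := hL ρ hρ0
  obtain ⟨CB, hCB, hAB⟩ := (hN (6 / d)).2 (1 / 2) (by norm_num)
  obtain ⟨bD, hbD⟩ := hD s0 d e' J hd he'
  obtain ⟨bS, hbS⟩ := hS J hJ1 g hg0' hg2'
  obtain ⟨e2, he2d⟩ : ∃ e2 : ℝ, e2 = max (2 - gam s0 - ε) 0 := ⟨_, rfl⟩
  have he20 : 0 ≤ e2 := by rw [he2d]; exact le_max_right _ _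
  have hxe2 : 2 - gam s0 - ε ≤ e2 := by rw [he2d]; exact le_max_left _ _
  have hκ : 0 < (2 - g) * J - ((J : ℝ) + 6) * e2 := by
    have hJ0 : (1 : ℝ) ≤ J := by exact_mod_cast hJ1
    rcases le_total (2 - gam s0 - ε) 0 with h | h
    · rw [he2d, max_eq_right h]
      nlinarith
    · rw [he2d, max_eq_left h, hgg]
      have h1 : 16 ≤ ε * J := by
        rw [div_le_iff₀ hε] at hJε
        linarith
      have h2 : (ε - e') * J ≥ 14 := by nlinarith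
      nlinarith
  -- large b
  have ev1 : ∀ᶠ b : ℕ in atTop, 4 / d ≤ Real.log b :=
    (Real.tendsto_log_atTop.comp tendsto_natCast_atTop_atTop).eventually_ge_atTop _
  have ev2 : ∀ᶠ b : ℕ in atTop, 36 * J * CA * ρ⁻¹ ≤ (b : ℝ) :=
    tendsto_natCast_atTop_atTop.eventually_ge_atTop _
  have ev3 : ∀ᶠ b : ℕ in atTop, 36 * CB ≤ (b : ℝ) :=
    tendsto_natCast_atTop_atTop.eventually_ge_atTop _
  have ev4 : ∀ᶠ b : ℕ in atTop, (b : ℝ) ^ (2 * (J + 6)) * Real.exp (-(b : ℝ)) < 1 / 4 :=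
    ((Real.tendsto_pow_mul_exp_neg_atTop_nhds_zero (2 * (J + 6))).comp
      tendsto_natCast_atTop_atTop).eventually_lt_const (by norm_num)
  have ev5 : ∀ᶠ b : ℕ in atTop, 2 ≤ (b : ℝ) ^ ((2 - g) * J - ((J : ℝ) + 6) * e2) :=
    ((tendsto_rpow_atTop hκ).comp tendsto_natCast_atTop_atTop).eventually_ge_atTop _
  have ev6 : ∀ᶠ b : ℕ in atTop, max (max bD bS) (2 ^ (J + 5)) ≤ b := eventually_ge_atTop _
  obtain ⟨B, hBB⟩ := eventually_atTop.1 (ev1.and (ev2.and (ev3.and (ev4.and (ev5.and ev6)))))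
  refine ⟨B ^ (J + 5) + 1, fun n hn S hSb => ?_⟩
  obtain ⟨b, hb1, hb2⟩ := root_exists (J + 5) (by omega) n
  have hBb : B ≤ b := by
    by_contra hlt
    have : (b + 1) ^ (J + 5) ≤ B ^ (J + 5) := Nat.pow_le_pow_left (by omega) _
    omega
  obtain ⟨f1, f2, f3, f4, f5, f6⟩ := hBB b hBb
  have hbD' : bD ≤ b := (le_max_left _ _).trans ((le_max_left _ _).trans f6)
  have hbS' : bS ≤ b := (le_max_right _ _).trans ((le_max_left _ _).trans f6)
  have hb2p : 2 ^ (J + 5) ≤ b := (le_max_right _ _).trans f6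
  have hb32 : 32 ≤ b := by
    have : 2 ^ 5 ≤ 2 ^ (J + 5) := Nat.pow_le_pow_right (by norm_num) (by omega)
    omega
  have hbpos : 1 ≤ b := by omega
  have hn1 : 1 ≤ n := by omega
  have hn0 : (0 : ℝ) < n := by exact_mod_cast hn1
  have hnb : n ≤ b ^ (J + 6) := nb_upper b n J hb2p hb2
  have h8 : 8 * b ^ J ≤ n := by
    calc 8 * b ^ J ≤ b ^ 5 * b ^ J := Nat.mul_le_mul_right _ (by
            calc 8 ≤ b := by omega
              _ ≤ b ^ 5 := Nat.le_self_pow (by norm_num) _)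
      _ = b ^ (J + 5) := by rw [← pow_add, add_comm]
      _ ≤ n := hb1
  have hbJn : b ^ J ≤ n := by omega
  have hbJ1 : 1 ≤ b ^ J := Nat.one_le_pow _ _ hbpos
  have hlogb : 4 ≤ d * Real.log b := by
    rw [div_le_iff₀ hd] at f1
    linarith
  obtain ⟨k, hkd⟩ : ∃ k : ℕ, k = ⌊d * Real.log b / 18⌋₊ := ⟨_, rfl⟩
  have hk1 : (k : ℝ) ≤ d * Real.log b / 18 := by
    rw [hkd]
    exact Nat.floor_le (by linarith)
  have hk2 : d * Real.log b / 18 ≤ k + 1 := by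
    rw [hkd]
    exact (Nat.lt_floor_add_one _).le
  set Q : ℕ → Set ℕ := fun _ => {m : ℕ | |(m : ℝ) - dL s0 * Real.log b| ≤ d * Real.log b} with hQ
  set Bad1 : Finset Edg → Prop := fun F => ∃ v ∈ vb n, ∃ i ∈ Finset.Icc 1 J,
    ¬ Lnk v (b ^ i) k F with hBad1
  set Bad2 : Finset Edg → Prop := fun F => ∃ v ∈ vb n, d * J * Real.log b <
    (N F v (4 * b ^ J) n : ℝ) with hBad2
  set Bad3 : Finset Edg → Prop := fun F => (cnt N b J Q (vb (b ^ (J + 5))) F : ℝ) <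
    (b : ℝ) ^ ((2 - g) * J) / 2 with hBad3
  -- the deterministic inclusion
  have hincl : ∀ F, F ⊆ S → ((((vb n).filter (fun v => (N F v 0 n : ℝ) ≤
      dL s1 * Real.log n)).card : ℝ) < (n : ℝ) ^ (2 - gam s0 - ε)) →
      Bad1 F ∨ (Bad2 F ∨ Bad3 F) := by
    intro F _ hF
    by_contra hcon
    rw [not_or, not_or] at hcon
    obtain ⟨c1, c2, c3⟩ := hcon
    rw [hBad1] at c1
    rw [hBad2] at c2
    rw [hBad3] at c3
    simp only [not_exists, not_and, not_not, not_lt] at c1 c2 c3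
    have hsub : (vb (b ^ (J + 5))).filter (fun v => Gd N b J Q v F) ⊆
        (vb n).filter (fun v => (N F v 0 n : ℝ) ≤ dL s1 * Real.log n) := by
      intro v hv
      rw [Finset.mem_filter] at hv ⊢
      have hvn := vb_mono hb1 hv.1
      refine ⟨hvn, ?_⟩
      exact good_bound hG F v b k n J (dL s0) (dL s1) d (by omega) hJ1 h8 hd hν0.le
        (by rw [hdd]; linarith) (by linarith) hlogb
        (fun i hi1 hi2 => c1 v hvn i (Finset.mem_Icc.2 ⟨hi1, hi2⟩)) (c2 v hvn)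
        (fun j hj => hv.2 j hj)
    have hcard := Finset.card_le_card hsub
    have hcnt : (cnt N b J Q (vb (b ^ (J + 5))) F : ℝ) ≤
        (((vb n).filter (fun v => (N F v 0 n : ℝ) ≤ dL s1 * Real.log n)).card : ℝ) := by
      unfold cnt
      exact_mod_cast hcard
    have hnum := numC n b J (2 - gam s0 - ε) e2 ((2 - g) * J) hbpos hn1 hnb hxe2 he20 f5
    linarith
  -- probabilities
  have hsubS : ∀ v ∈ vb n, ∀ m : ℤ, 0 ≤ m → m ≤ n → bx v m ⊆ S := by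
    intro v hv m hm0 hmn
    refine Finset.Subset.trans (bx_sub v (0, 0) m (2 * n) ?_ ?_ ?_ ?_) hSb
    all_goals rw [mem_vb] at hv
    all_goals simp only
    all_goals omega
  have p1 : Pr P2 S Bad1 ≤ 1 / (4 * (n : ℝ) ^ 2) := by
    have h1 := Pr_exists_le okP2 S (vb n) (fun v F => ∃ i ∈ Finset.Icc 1 J, ¬ Lnk v (b ^ i) k F)
    have h2 : ∀ v ∈ vb n, Pr P2 S (fun F => ∃ i ∈ Finset.Icc 1 J, ¬ Lnk v (b ^ i) k F) ≤
        J * (CA * ρ ^ k) := by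
      intro v hv
      refine (Pr_exists_le okP2 S (Finset.Icc 1 J) (fun i F => ¬ Lnk v (b ^ i) k F)).trans ?_
      calc ∑ i ∈ Finset.Icc 1 J, Pr P2 S (fun F => ¬ Lnk v (b ^ i) k F) ≤
          ∑ i ∈ Finset.Icc 1 J, CA * ρ ^ k := by
            refine Finset.sum_le_sum fun i hi => ?_
            rw [Finset.mem_Icc] at hi
            refine hLA (b ^ i) v S (Nat.one_le_pow _ _ hbpos) (hsubS v hv _ (by positivity) ?_) k
            have h3 : b ^ i ≤ b ^ J := Nat.pow_le_pow_right hbpos hi.2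
            have h4 : 8 * b ^ i ≤ n := by omega
            exact_mod_cast h4
        _ = J * (CA * ρ ^ k) := by
            rw [Finset.sum_const, Nat.card_Icc, nsmul_eq_mul, Nat.add_sub_cancel]
    calc Pr P2 S Bad1 ≤ ∑ v ∈ vb n, (J : ℝ) * (CA * ρ ^ k) := h1.trans (Finset.sum_le_sum h2)
      _ = ((vb n).card : ℝ) * (J * (CA * ρ ^ k)) := by rw [Finset.sum_const, nsmul_eq_mul]
      _ ≤ 9 * (n : ℝ) ^ 2 * (J * (CA * ρ ^ k)) :=
          mul_le_mul_of_nonneg_right (card_vb n hn1) (by positivity)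
      _ ≤ _ := numA n b k J CA ρ d hd hCA hbpos hn1 hnb hρ hk2 f2
  have p2 : Pr P2 S Bad2 ≤ 1 / (4 * (n : ℝ) ^ 2) := by
    have h1 := Pr_exists_le okP2 S (vb n) (fun v F => d * J * Real.log b <
      (N F v (4 * b ^ J) n : ℝ))
    have h0 := hAB (b ^ J) n hbJ1 h8
    rw [← hl] at h0
    have h2 : ∀ v ∈ vb n, Pr P2 S (fun F => d * J * Real.log b < (N F v (4 * b ^ J) n : ℝ)) ≤
        Real.exp (-(6 / d * (d * J * Real.log b))) *
          (CB * ((n : ℝ) / ((b ^ J : ℕ) : ℝ)) ^ l * (n : ℝ) ^ (1 / 2 : ℝ)) := by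
      intro v hv
      refine (markov hG S v (4 * b ^ J) n (by omega) (hsubS v hv _ (by positivity) le_rfl)
        (6 / d) (d * J * Real.log b) (by positivity)).trans ?_
      exact mul_le_mul_of_nonneg_left h0 (Real.exp_pos _).le
    calc Pr P2 S Bad2 ≤ ∑ v ∈ vb n, Real.exp (-(6 / d * (d * J * Real.log b))) *
          (CB * ((n : ℝ) / ((b ^ J : ℕ) : ℝ)) ^ l * (n : ℝ) ^ (1 / 2 : ℝ)) :=
          h1.trans (Finset.sum_le_sum h2)
      _ = ((vb n).card : ℝ) * (Real.exp (-(6 / d * (d * J * Real.log b))) *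
          (CB * ((n : ℝ) / ((b ^ J : ℕ) : ℝ)) ^ l * (n : ℝ) ^ (1 / 2 : ℝ))) := by
          rw [Finset.sum_const, nsmul_eq_mul]
      _ ≤ 9 * (n : ℝ) ^ 2 * (Real.exp (-(6 / d * (d * J * Real.log b))) *
          (CB * ((n : ℝ) / ((b ^ J : ℕ) : ℝ)) ^ l * (n : ℝ) ^ (1 / 2 : ℝ))) :=
          mul_le_mul_of_nonneg_right (card_vb n hn1) (by positivity)
      _ ≤ _ := numB n b J CB d l hd hCB hbpos hbJn hnb hJ28 f3
  have p3 : Pr P2 S Bad3 ≤ 1 / (4 * (n : ℝ) ^ 2) := by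
    have h1 := hbS b hbS' Q (fun j hj => by
      have := hbD b hbD' j hj
      rw [hgg, neg_add']
      exact this) S (Finset.Subset.trans (bx_sub (0, 0) (0, 0) _ _
        (by
          have : (b : ℤ) ^ (J + 5) ≤ n := by exact_mod_cast hb1
          simp only
          omega)
        (by
          have : (b : ℤ) ^ (J + 5) ≤ n := by exact_mod_cast hb1
          simp only
          omega)
        (by
          have : (b : ℤ) ^ (J + 5) ≤ n := by exact_mod_cast hb1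
          simp only
          omega)
        (by
          have : (b : ℤ) ^ (J + 5) ≤ n := by exact_mod_cast hb1
          simp only
          omega)) hSb)
    refine h1.trans ?_
    rw [le_div_iff₀ (by positivity)]
    have h2 : (n : ℝ) ^ 2 ≤ (b : ℝ) ^ (2 * (J + 6)) := by
      have : n ^ 2 ≤ b ^ (2 * (J + 6)) := by
        calc n ^ 2 ≤ (b ^ (J + 6)) ^ 2 := Nat.pow_le_pow_left hnb 2
          _ = b ^ (2 * (J + 6)) := by rw [← pow_mul, mul_comm]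
      exact_mod_cast this
    have h3 := mul_le_mul_of_nonneg_right h2 (Real.exp_pos (-(b : ℝ))).le
    linarith
  have hn2 : (0 : ℝ) < (n : ℝ) ^ 2 := by positivity
  calc Pr P2 S (fun F => (((vb n).filter (fun v => (N F v 0 n : ℝ) ≤
        dL s1 * Real.log n)).card : ℝ) < (n : ℝ) ^ (2 - gam s0 - ε))
      ≤ Pr P2 S (fun F => Bad1 F ∨ (Bad2 F ∨ Bad3 F)) := Pr_mono okP2 hincl
    _ ≤ Pr P2 S Bad1 + Pr P2 S (fun F => Bad2 F ∨ Bad3 F) := Pr_or_le okP2 S _ _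
    _ ≤ Pr P2 S Bad1 + (Pr P2 S Bad2 + Pr P2 S Bad3) := by
        have := Pr_or_le okP2 S Bad2 Bad3
        linarith
    _ ≤ 3 * (1 / (4 * (n : ℝ) ^ 2)) := by linarith
    _ ≤ 1 / (n : ℝ) ^ 2 := by
        rw [mul_one_div, div_le_div_iff₀ (by positivity) hn2]
        nlinarith

end Pool.Agent.W839.EN
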